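import Pool.Agent.H1.Mal.CharZero

/-!
# Free Malcev algebras of ranks three and four have the same identities in characteristic zero
-/

set_option autoImplicit false

namespace Pool.Agent.Results.MP_75f770_al.RankThreeFour

/-- Over a field `K` of characteristic zero a nonassociative polynomial `f` with coefficients in `K`
vanishes in all Malcev algebras generated by three elements (equivalently, is an identity of the
free Malcev algebra of rank three) if and only if it vanishes in all Malcev algebras generated by
four elements (equivalently, is an identity of the free Malcev algebra of rank four). -/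
theorem result (K : Type) [Field K] [CharZero K] (f : MonoidAlgebra K (FreeMagma ℕ)) :
    (∀ (A : Type) [NonUnitalNonAssocRing A] [Module K A] [IsScalarTower K A A]
        [SMulCommClass K A A],
        (∀ x : A, x * x = 0) →
        (∀ x y z : A,
          x * y * (x * z) + y * (x * z) * x + x * z * x * y
            = (x * y * z + y * z * x + z * x * y) * x) →
        ∀ a : Fin 3 → A, NonUnitalAlgebra.adjoin K (Set.range a) = ⊤ →
        ∀ v : ℕ → A, MonoidAlgebra.liftMagma K (FreeMagma.lift v) f = 0) ↔
    (∀ (A : Type) [NonUnitalNonAssocRing A] [Module K A] [IsScalarTower K A A]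
        [SMulCommClass K A A],
        (∀ x : A, x * x = 0) →
        (∀ x y z : A,
          x * y * (x * z) + y * (x * z) * x + x * z * x * y
            = (x * y * z + y * z * x + z * x * y) * x) →
        ∀ a : Fin 4 → A, NonUnitalAlgebra.adjoin K (Set.range a) = ⊤ →
        ∀ v : ℕ → A, MonoidAlgebra.liftMagma K (FreeMagma.lift v) f = 0) := by
  constructor
  · intro h A _ _ _ _ hsq hmal a ha v
    have hM : Pool.Agent.H1.Mal.IsMal A := ⟨hsq, hmal⟩
    refine Pool.Agent.H1.Mal.main_K (f := f) ?_ A a ha v
    intro B _ _ _ _ hB b hb w
    exact h B hB.sq hB.mal b hb w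
  · intro h A _ _ _ _ hsq hmal a ha v
    have hM : Pool.Agent.H1.Mal.IsMal A := ⟨hsq, hmal⟩
    refine Pool.Agent.H1.Mal.easy_K (f := f) ?_ A a ha v
    intro B _ _ _ _ hB b hb w
    exact h B hB.sq hB.mal b hb w

end Pool.Agent.Results.MP_75f770_al.RankThreeFour
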